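import Mathlib

open Filter Topology Set

namespace Pool.Agent.Results.MP_174f4a_gt.NotFU

/-- `C_p(X)`: the additive group of continuous real functions, pointwise topology. -/
def Cp (X : Type) [TopologicalSpace X] : AddSubgroup (X → ℝ) where
  carrier := {f | Continuous f}
  add_mem' := Continuous.add
  zero_mem' := continuous_zero
  neg_mem' := Continuous.neg

/-- Every sequentially continuous homomorphism into a Hausdorff topological group is continuous. -/
def IsSGroup (G : Type) [AddCommGroup G] [TopologicalSpace G] : Prop :=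
  ∀ (H : Type) [Group H] [TopologicalSpace H] [IsTopologicalGroup H] [T2Space H] (φ : G → H),
    (∀ x y, φ (x + y) = φ x * φ y) → SeqContinuous φ → Continuous φ

lemma core {W : Type} [LinearOrder W] [Uncountable W] (w : ∀ t : W, (Iic t).Countable) :
    IsSGroup (W → ℝ) := by
  classical
  intro H _ _ _ _ φ hφ hs
  let ψ : Multiplicative (W → ℝ) →* H := MonoidHom.mk' (fun x => φ x.toAdd) fun x y => hφ _ _
  have h0 : φ 0 = 1 := ψ.map_one
  suffices h : ContinuousAt φ 0 from continuous_of_continuousAt_one ψ h
  choose f hf using fun t => countable_iff_exists_injOn.1 (w t)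
  rw [ContinuousAt, h0]
  intro U hU
  obtain ⟨V', hV', hVU⟩ := exists_nhds_one_split hU
  obtain ⟨V, hV, hVc, hVV⟩ := exists_mem_nhds_isClosed_subset hV'
  have h1 : ∀ n : ℕ, {s | ∃ x : W → ℝ, (∀ t, x t ≠ 0 → s < t ∧ f t s ≤ n) ∧ φ x ∉ V}.Finite := by
    intro n
    by_contra hinf
    let e := Set.Infinite.natEmbedding _ hinf
    choose x hx1 hx2 using fun k => (e k).2
    have hlim : Tendsto x atTop (𝓝 0) := by
      rw [tendsto_pi_nhds]
      intro t
      refine tendsto_const_nhds.congr' ?_
      rw [← Nat.cofinite_eq_atTop]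
      refine eventually_cofinite.2 (Finite.of_finite_image (f := fun k => f t (e k))
        ((finite_le_nat n).subset ?_) fun k hk k' hk' h => ?_)
      · rintro _ ⟨k, hk, rfl⟩
        exact (hx1 k t fun h => hk h.symm).2
      · exact e.injective (Subtype.ext (hf t (hx1 k t fun h => hk h.symm).1.le
          (hx1 k' t fun h => hk' h.symm).1.le h))
    have := hs hlim
    rw [h0] at this
    obtain ⟨k, hk⟩ := (this.eventually hV).exists
    exact hx2 k hk
  obtain ⟨s, hs0⟩ := not_forall.1 fun n => not_countable_univ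
    ((countable_iUnion fun n => (h1 n).countable).mono fun s _ => n s)
  simp only [mem_iUnion, mem_ofPred_eq, not_exists, not_and, not_not] at hs0
  have h2 : ∀ x : W → ℝ, (∀ t ≤ s, x t = 0) → φ x ∈ V := by
    intro x hx
    have hlim : Tendsto (fun n t => if f t s ≤ n then x t else 0) atTop (𝓝 x) := by
      rw [tendsto_pi_nhds]
      intro t
      refine tendsto_const_nhds.congr' ?_
      filter_upwards [eventually_ge_atTop (f t s)] with n hn
      rw [if_pos hn]
    refine hVc.mem_of_tendsto (hs hlim) (Eventually.of_forall fun n => hs0 n _ fun t ht => ?_)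
    beta_reduce at ht
    split_ifs at ht with h
    · exact ⟨not_le.1 fun h' => ht (hx t h'), h⟩
    · exact absurd rfl ht
  have : Countable (Iic s) := (w s).to_subtype
  let ex : (Iic s → ℝ) → W → ℝ := fun y t => if h : t ≤ s then y ⟨t, h⟩ else 0
  have hex : Continuous ex := continuous_pi fun t => by
    by_cases h : t ≤ s
    · simp only [ex, dif_pos h]; exact continuous_apply _
    · simp only [ex, dif_neg h]; exact continuous_const
  have h3 : Continuous (φ ∘ ex) := SeqContinuous.continuous fun y p h => hs ((hex.tendsto p).comp h)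
  have h4 : Continuous fun x : W → ℝ => φ (ex fun t => x t) := 
    h3.comp (f := fun (x : W → ℝ) (t : Iic s) => x t) (by fun_prop)
  have h5 : (ex fun t => (0 : W → ℝ) t) = 0 := by ext t; simp [ex]
  have h6 := h4.tendsto 0
  rw [h5, h0] at h6
  rw [Filter.mem_map]
  filter_upwards [h6.eventually hV] with x hx
  have e : φ x = φ (ex fun t => x t) * φ (x - ex fun t => x t) := by rw [← hφ, add_sub_cancel]
  rw [mem_preimage, e]
  exact hVU _ (hVV hx) _ (hVV (h2 _ fun t ht => by simp [ex, ht]))

lemma notFU {W : Type} [Uncountable W] : ¬ FrechetUrysohnSpace (W → ℝ) := by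
  classical
  intro h
  have h1 : (0 : W → ℝ) ∈ closure {x : W → ℝ | {t | x t ≠ 1}.Finite} := by
    rw [mem_closure_iff_nhds]
    intro N hN
    rw [nhds_pi, Filter.mem_pi] at hN
    obtain ⟨I, hI, u, hu, hIN⟩ := hN
    refine ⟨fun t => if t ∈ I then 0 else 1, hIN fun t ht => ?_, hI.subset fun t ht => ?_⟩
    · simp only [if_pos ht]; exact mem_of_mem_nhds (hu t)
    · by_contra h; exact ht (if_neg h)
  obtain ⟨x, hx, hlim⟩ := mem_closure_iff_seq_limit.1 h1
  obtain ⟨t, ht⟩ := not_forall.1 fun n => not_countable_univ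
    ((countable_iUnion fun n => (hx n).countable).mono fun s _ => n s)
  simp only [mem_iUnion, mem_ofPred_eq, not_exists, not_not] at ht
  have := tendsto_pi_nhds.1 hlim t
  simp only [ht, Pi.zero_apply] at this
  exact one_ne_zero (tendsto_nhds_unique tendsto_const_nhds this)

lemma transfer {W G : Type} [LinearOrder W] [Uncountable W] (w : ∀ t : W, (Iic t).Countable)
    [AddCommGroup G] [TopologicalSpace G] (e : (W → ℝ) ≃ₜ G) (he : ∀ x y, e (x + y) = e x + e y) :
    IsSGroup G ∧ ¬ FrechetUrysohnSpace G := by
  refine ⟨fun H _ _ _ _ φ hφ hs => ?_, fun h => notFU e.isInducing.frechetUrysohnSpace⟩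
  have := core w H (φ ∘ e) (fun x y => by simp [he, hφ])
    (fun y p h => hs ((e.continuous.tendsto p).comp h))
  exact e.comp_continuous_iff'.1 this

theorem result : ∃ (X : Type) (_ : TopologicalSpace X), DiscreteTopology X ∧
    (IsSGroup (Cp X) ∧ ¬ FrechetUrysohnSpace (Cp X)) ∧
    (IsSGroup C(X, ℝ) ∧ ¬ FrechetUrysohnSpace C(X, ℝ)) := by
  let W := (Cardinal.aleph 1).ord.ToType
  have : Uncountable W := Cardinal.aleph0_lt_mk_iff.1 (by simp [W])
  have w : ∀ t : W, (Iic t).Countable := fun t => by
    rw [← Iio_insert]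
    refine Countable.insert _ ?_
    rw [← Cardinal.le_aleph0_iff_set_countable, ← Order.lt_succ_iff, Cardinal.succ_aleph0]
    exact Cardinal.mk_Iio_toType_ord_lt t
  let τ : TopologicalSpace W := ⊥
  have : DiscreteTopology W := ⟨rfl⟩
  refine ⟨W, τ, this, transfer w ?_ ?_, transfer w ContinuousMap.homeoFnOfDiscrete.symm fun _ _ => rfl⟩
  · exact
      { toFun := fun x => ⟨x, continuous_of_discreteTopology⟩
        invFun := fun x => x.1
        left_inv := fun _ => rfl
        right_inv := fun _ => rfl
        continuous_toFun := continuous_id.subtype_mk _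
        continuous_invFun := continuous_subtype_val }
  · exact fun _ _ => rfl

end Pool.Agent.Results.MP_174f4a_gt.NotFU
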